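import Pool.Agent.H42.Dirac

open MeasureTheory Cardinal

/-- If the real line is covered by at most aleph-one Lebesgue null sets (for example under CH),
there is a countably tight compactum X such that P(X) is not countably tight at a Dirac measure. -/
theorem Pool.Agent.Results.MP_aebb62_gt.CovNull.result
    (h : ∃ N : Set (Set ℝ), #N ≤ ℵ₁ ∧ (∀ s ∈ N, volume s = 0) ∧ ⋃₀ N = Set.univ) :
    ∃ (X : Type) (_ : TopologicalSpace X) (_ : CompactSpace X) (_ : T2Space X)
      (_ : MeasurableSpace X) (_ : BorelSpace X),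
      (∀ (S : Set X) (y : X), y ∈ closure S → ∃ T ⊆ S, T.Countable ∧ y ∈ closure T) ∧
      ∃ (x : X) (A : Set (ProbabilityMeasure X)), (∀ μ ∈ A, (μ : Measure X).Regular) ∧
        (⟨Measure.dirac x, inferInstance⟩ : ProbabilityMeasure X) ∈ closure A ∧
        ∀ B ⊆ A, B.Countable →
          (⟨Measure.dirac x, inferInstance⟩ : ProbabilityMeasure X) ∉ closure B := by
  obtain ⟨N, h1, h2, h3⟩ := h
  exact Pool.Agent.H42.Dirac.main N h1 h2 h3
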